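import Pool.Agent.W495.FM.HomDefs

/-!
# The vanishing of Beilinson and Soulé for schemes over finite fields: definitions
-/

set_option autoImplicit false

namespace Pool.Agent.K3h30.BS

open Pool.Agent.W495.FM

variable {Ω V : Type} [Field Ω]

/-- Deligne: as the scheme `X` has dimension at most `d`, the Frobenius has no eigenvalue one on
`H_a(X, ℚ_ℓ(b))` for `a > b + d` (the eigenvalues of the Frobenius on the cohomology `H^a_c` with compact
supports are algebraic integers, divisible by `q ^ (a - d)` if `a ≥ d`, and `q ^ b` is not one of
them). -/
def IsIntegralLE (T : Homology Ω V) (X : V) (d : ℤ) : Prop :=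
  ∀ a b : ℤ, b + d < a → ∀ e : T.E X a b, T.frob X a b e = e → e = 0

/-- The vanishing of Beilinson and Soulé for the scheme `X` of dimension at most `d`, with rational
coefficients: `H_a^M(X, ℚ(b)) = 0` for `a > b + d`. If `X` is smooth of pure dimension `d` this is
`H^i(X, ℚ(n)) = 0` for `i < n`, where `a = 2 d - i` and `b = d - n`. -/
def RatVanishing (T : Homology Ω V) (X : V) (d : ℤ) : Prop :=
  ∀ a b : ℤ, b + d < a → ∀ x : T.M X a b, x = 0

/-- The smallest class of pairs of a scheme and (a bound `d` for) its dimension that contains

* the schemes of dimension at most `d` in the class `Generated` (generated by the schemes with the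
  property `S`),
* the schemes for which the vanishing is known otherwise, for instance all schemes of dimension at most
  one (Harder, Quillen),
* the schemes whose motives are direct summands of sums of twists of motives of members (blow-ups,
  projective bundles),
* the complement in a member of dimension `d` of a closed subscheme which is a member of dimension
  `d - 1`, and the schemes that are the disjoint union of a closed and of an open member. -/
inductive Admissible (T : Homology Ω V) (S : V → Prop) : V → ℤ → Prop
  | base (X : V) (d : ℤ) (hX : Generated T S X) (hd : IsIntegralLE T X d) : Admissible T S X d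
  | known (X : V) (d : ℤ) (h : RatVanishing T X d) : Admissible T S X d
  | summand {I : Type} [Fintype I] (X : V) (d : ℤ) (Y : I → V) (r : I → ℤ)
      (h : IsSummandOf T X Y r) (hY : ∀ l, Admissible T S (Y l) (d + r l)) : Admissible T S X d
  | opened (Z X U : V) (d : ℤ) (h : IsTriple T Z X U) (hZ : Admissible T S Z (d - 1))
      (hX : Admissible T S X d) : Admissible T S U d
  | total (Z X U : V) (d : ℤ) (h : IsTriple T Z X U) (hZ : Admissible T S Z d)
      (hU : Admissible T S U d) : Admissible T S X d

/-- The groups `H i n = H^i(X, ℤ(n))` are the motivic cohomology groups (the hypercohomology of the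
complex `ℤ(n)`) of the smooth scheme `X` of pure dimension `d`: up to torsion they embed into the
groups `H^i(X, ℚ(n)) = H_(2 d - i)^M(X, ℚ(d - n))`, and for `i ≤ 0 < n` they are torsion free (the
groups `H^(i - 1)(X, ℤ/m(n))` are zero by theorems of Voevodsky, Rost, Geisser and Levine). -/
structure IsMotivicCohomology (T : Homology Ω V) (X : V) (d : ℤ) (H : ℤ → ℤ → Type)
    [∀ i n, AddCommGroup (H i n)] : Prop where
  rational : ∀ i n : ℤ, ∃ f : H i n → T.M X (2 * d - i) (d - n), IsAdd f ∧
    ∀ x, f x = 0 → ∃ N : ℕ, 0 < N ∧ N • x = 0
  torsionFree : ∀ i n : ℤ, i ≤ 0 → 0 < n → ∀ (x : H i n) (N : ℕ), 0 < N → N • x = 0 → x = 0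

/-- The vanishing of Beilinson and Soulé for `X`, of dimension at most `d`: with rational coefficients
(in all degrees below the weight), and, if `X` is smooth of pure dimension `d`, for the complexes `ℤ(n)`
themselves: `H^i(X, ℤ(n))` is a torsion group for `i < n` and zero for `i ≤ 0 < n`. -/
def Vanishing (T : Homology Ω V) (X : V) (d : ℤ) : Prop :=
  RatVanishing T X d ∧ ∀ (H : ℤ → ℤ → Type) [∀ i n, AddCommGroup (H i n)],
    IsMotivicCohomology T X d H →
      (∀ i n : ℤ, i < n → ∀ x : H i n, ∃ N : ℕ, 0 < N ∧ N • x = 0) ∧
        ∀ i n : ℤ, i ≤ 0 → 0 < n → ∀ x : H i n, x = 0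

end Pool.Agent.K3h30.BS
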