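import Pool.Agent.K3h30.BS.Defs
import Pool.Agent.X303.TBDual

/-!
# The vanishing of Beilinson and Soulé for schemes over finite fields
-/

set_option autoImplicit false

namespace Pool.Agent.K3h30.BS

open Pool.Agent.W495.FM Pool.Agent.X303.TBDual

set_option linter.unusedSectionVars false

variable {Ω V : Type} [Field Ω] [CharZero Ω] {T : Homology Ω V} {X : V}

theorem isAdd_zero {A B : Type} [AddCommGroup A] [AddCommGroup B] {f : A → B} (hf : IsAdd f) :
    f 0 = 0 := by
  have h := hf 0 0
  rw [add_zero] at h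
  have h2 : f 0 + 0 = f 0 + f 0 := by rw [add_zero]; exact h
  exact (add_left_cancel h2).symm

theorem vanishing_of_tb (hT : IsHomology T) (h : TB T X) {d : ℤ} (hd : IsIntegralLE T X d) :
    RatVanishing T X d := by
  intro a b hab x
  by_contra hx
  exact reg_ne_zero h hx (hd a b hab _ (hT.frob_reg X a b x))

theorem vanishing_summand {I : Type} [Fintype I] {d : ℤ} {Y : I → V} {r : I → ℤ}
    (h : IsSummandOf T X Y r) (hY : ∀ l, RatVanishing T (Y l) (d + r l)) : RatVanishing T X d := by
  intro a b hab x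
  obtain ⟨s, t, h1, -⟩ := h a b
  rw [← h1 x]
  refine Finset.sum_eq_zero fun l _ => ?_
  rw [hY l _ _ (by omega) ((s l).f x)]
  exact isAdd_zero (t l).add

theorem vanishing_opened {Z U : V} {d : ℤ} (h : IsTriple T Z X U) (hZ : RatVanishing T Z (d - 1))
    (hX : RatVanishing T X d) : RatVanishing T U d := by
  intro a b hab x
  obtain ⟨α, β, δ, hex⟩ := h b
  obtain ⟨i, rfl⟩ : ∃ i, a = i + 1 := ⟨a - 1, by omega⟩
  have h1 : (δ i).f x = 0 := hZ i b (by omega) _
  obtain ⟨y, rfl⟩ := ((hex i).2.1.1 x).1 h1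
  rw [hX (i + 1) b hab y]
  exact isAdd_zero (β (i + 1)).add

theorem vanishing_total {Z U : V} {d : ℤ} (h : IsTriple T Z X U) (hZ : RatVanishing T Z d)
    (hU : RatVanishing T U d) : RatVanishing T X d := by
  intro a b hab x
  obtain ⟨α, β, δ, hex⟩ := h b
  have h1 : (β a).f x = 0 := hU a b hab _
  obtain ⟨y, rfl⟩ := ((hex a).1.1 x).1 h1
  rw [hZ a b hab y]
  exact isAdd_zero (α a).add

/-- **The vanishing of Beilinson and Soulé**, with rational coefficients. -/
theorem rat_vanishing (hT : IsHomology T) {S : V → Prop} (hS : ∀ X, Generated T S X → TB T X) {d : ℤ}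
    (hX : Admissible T S X d) : RatVanishing T X d := by
  induction hX with
  | base X d hX hd => exact vanishing_of_tb hT (hS X hX) hd
  | known X d h => exact h
  | summand X d Y r h _ ih => exact vanishing_summand h ih
  | opened Z X U d h _ _ hZ hX => exact vanishing_opened h hZ hX
  | total Z X U d h _ _ hZ hU => exact vanishing_total h hZ hU

/-- **The vanishing of Beilinson and Soulé**. -/
theorem vanishing (hT : IsHomology T) {S : V → Prop} (hS : ∀ X, Generated T S X → TB T X) {d : ℤ}
    (hX : Admissible T S X d) : Vanishing T X d := by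
  have h0 := rat_vanishing hT hS hX
  refine ⟨h0, fun H _ hH => ?_⟩
  have h1 : ∀ i n : ℤ, i < n → ∀ x : H i n, ∃ N : ℕ, 0 < N ∧ N • x = 0 := by
    intro i n hin x
    obtain ⟨f, -, hf⟩ := hH.rational i n
    exact hf x (h0 _ _ (by omega) (f x))
  refine ⟨h1, fun i n hi hn x => ?_⟩
  obtain ⟨N, hN, hx⟩ := h1 i n (by omega) x
  exact hH.torsionFree i n hi hn x N hN hx

end Pool.Agent.K3h30.BS
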